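import Pool.Agent.R929.AF.MTFin

/-!
# The Mumford-Tate conjecture for all products of varieties of a family with an arbitrary variety follows
from finitely many cases

Let `W` be a Weil cohomology theory with algebraically closed coefficients on a class of smooth proper
varieties (the example: the varieties over a number field `L ⊂ ℂ`, and the étale cohomology with
coefficients in an algebraic closure of `ℚ_ℓ`, identified by Artin's comparison isomorphism and an
isomorphism of fields with the singular cohomology with coefficients in `ℂ`), with a system `G` of Galois
actions of the group `Γ` and a system `Ψ` of Hodge structures, both compatible with pull-backs. The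
Tate classes are those on which a subgroup of finite index acts by the power of the character of the
Tate twist; the Hodge classes are the rational classes of type `(j, j)`. `MumfordTate Ψ G Y` is the
Mumford-Tate conjecture for the classes on `Y`: for all `j` the Tate classes of degree `2 j` are the
linear combinations of Hodge classes of degree `2 j`.

Let `X_i`, `i ∈ ι`, be a (finite or infinite) family of odd-dimensional varieties for which
numerical and homological equivalence coincide, whose transcendental cohomology `T_i` (the
orthogonal complement of all algebraic classes) is in the middle degree and not zero, such that the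
Mumford-Tate group and the Galois group act irreducibly on the operators on `T_i` which are skew with
respect to the intersection form, some element of `Γ` has two eigenvalues on `T_i` whose quotient is not a
root of unity, and the adjoint representations (of both groups) for different `i` are not isomorphic.
Examples: curves of genus `g ≥ 1` and hypersurfaces and complete intersections of odd dimension with big
image of Galois.

Let `Z` be an **arbitrary** variety of the class, and `Y_L = X_{i_1} × ... × X_{i_n} × Z` for a list
`L = [i_1, ..., i_n]` (with repetitions).

**Theorem, first part.** There are a finite set `B` of indices, with `∑_{i ∈ B} dim T_i ≤ 2 dim H^*(Z)`, and a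
**finite set `𝒮` of lists** of elements of `B` of length less than `dim H^*(Z)`, such that for all
lists `L` the Mumford-Tate conjecture for the classes on `Y_L` holds if and only if it holds for the finitely
many varieties `Y_{L'}` for the sublists `L'` of `L` which are in `𝒮`. For the lists `L'` in `𝒮`, for some
degree `m` of the parity of the sum of the `dim X_i`, the numbers `∏ (n_i + 1)` (`n_i` the multiplicity of
`i` in `L'`) and `∑ dim T_i` over the different entries of `L'` are at most the Betti number `b_m(Z)`. The
elements `i` of `B` are not separated from `Z`: either the slopes of Frobenius elements on `T_i` and on the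
constituents which generate `H^*(Z)`, or the Hodge types on `T_i` and on the constituents which generate
`H^*(Z)` do not separate `X_i` from `Z`.

**Theorem, second part.** If all `X_i` are separated from `Z` by slopes of a Frobenius element and by Hodge
types then for all lists `L` the Mumford-Tate conjecture for all powers of `Y_L` holds if and only if it
holds for all powers of `Z`. (For example, if `Z` is an abelian variety or a product of curves and `X_i` a
hypersurface of dimension at least three with a Frobenius element with a slope greater than
`(dim X_i + 1) / 2` and `h^{p,q} ≠ 0` for some `p > q + 1`.)
-/

universe u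

namespace Pool.Agent.Results.MP_6c781a_ag.FiniteReduction

open Pool.Agent.H914 Pool.Agent.H914.VarClass Pool.Agent.Y132.AH Pool.Agent.R929.AF

/-- **The Mumford-Tate conjecture for all products of varieties of a family with an arbitrary variety
follows from finitely many cases.** -/
theorem result {k : Type u} [Field k] {𝒱 : VarClass k} {ops : CycleOps 𝒱}
    (W : WeilCohomology.{u, 0} ops) [IsAlgClosed W.K] {Γ : Type} [Group Γ] (G : GaloisData W Γ)
    (Ψ : HodgeData W) {ι : Type} [DecidableEq ι] (X : ι → 𝒱.Obj) (Z : 𝒱.Obj)
    (hH : SpFamily Ψ X) (hG : BigFamily G X) :
    (∃ (B : Finset ι) (𝒮 : Finset (List ι)), ∑ i ∈ B, trDim W (X i) ≤ 2 * totDim W Z ∧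
      (∀ i ∈ B, ¬(SlopeSep G (X i) Z ∧ TypeSep Ψ (X i) Z)) ∧
      (∀ L ∈ 𝒮, SmallDim W X Z B L ∧ L.length < totDim W Z) ∧
      ∀ L : List ι, MumfordTate Ψ G (prodList X Z L) ↔
        ∀ L' ∈ 𝒮, L'.Sublist L → MumfordTate Ψ G (prodList X Z L')) ∧
    ((∀ i, SlopeSep G (X i) Z ∧ TypeSep Ψ (X i) Z) → ∀ L : List ι,
      MumfordTateAll Ψ G (prodList X Z L) ↔ MumfordTateAll Ψ G Z) :=
  finite_mt G Ψ Z hH hG

end Pool.Agent.Results.MP_6c781a_ag.FiniteReduction
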