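import Mathlib
import Pool.Agent.R932.PO.Fin2

/-!
# The Mumford-Tate conjecture for all powers `Y^k` from `Y^4` at one prime number

Let `Y` be a smooth projective variety over a number field `K ⊆ ℂ`. Suppose that the cohomology of `Y` is
a sum of classes of algebraic cycles and of Tate twists of finitely many pieces `V_i`, `i ∈ I` (cut out by
correspondences), where `V_i` has the rank `N_i` and a nondegenerate form `J_i` given by a polarization, such
that `J_i` is alternating (`V_i` in an odd degree `w_i`), or symmetric of rank `N_i ≥ 5`, `N_i ≠ 6` (`V_i` in an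
even degree, twisted to the weight `w_i = 0`). Suppose that the Mumford-Tate group of `⊕ V_i` is as large as the
forms permit: every rational Lie algebra whose complexification contains the family `h` of the operators which
are `(p - q) / 2` on `V_i^{p,q}` contains the Lie algebras of all the isometry groups of the `J_i` (this is so,
for example, for very general members of many families, by the density of the monodromy).

We choose rational bases of the Betti cohomology, and so by Artin's comparison isomorphism bases of the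
`ℓ`-adic cohomology groups `V_{i,ℓ}` for all prime numbers `ℓ`. The classes in the cohomology of the powers
`Y^k` are sums of products of cycle classes and of multilinear forms (tensors) on the products
`V_{a(1)} × ... × V_{a(k)}` for the words `a(1), ..., a(k)` in the elements of `I`; a rational tensor `T` is a
Hodge class if the derivation given by `h` kills `T`, and an `ℓ`-adic tensor `T` is a Tate class if
an open subgroup of the Galois group acts on `T` as the power of the cyclotomic character which belongs to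
half of the weight. So the statement `H = T` of the Mumford-Tate conjecture for all `Y^k` is
`MumfordTateConjecture`: for all words the Tate classes are exactly the combinations with `ℓ`-adic
coefficients of Hodge classes. The Frobenius polynomials `P_{i,v}` are rational and independent of `ℓ` (Deligne).

**Theorem.** Suppose that for ONE prime number `ℓ₀` (`ℓ₀ ≠ 2` for alternating forms, `ℓ₀` does not divide
`N_i - 1` for odd `N_i`, and `ℓ₀` does not divide `(N_i - 2)(N_i - 4)` and the valuation of `det J_i` is even for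
even `N_i` and symmetric `J_i`)
(T) the Tate classes in the words `(i, i, j, j)` (a part of the cohomology of `Y^4`) are combinations of Hodge
classes, that is `T ⊆ H` for these parts of the cohomology of `Y^4`;
(S) the representations on the squares `V_i ⊗ V_i = End(V_i)` are semisimple;
and for all `i` some place `v` of good reduction prime to `ℓ₀` is not supersingular for `V_i`.
Then
(1) there is a set of prime numbers of natural density zero such that for all prime numbers `ℓ` outside this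
set `H = T` for all words, that is for all the powers `Y^k`;
(2) for EVERY prime number `ℓ` such that the `V_{i,ℓ}` are semisimple, if `T ⊆ H` holds for the words `(i, i)`
(a part of the cohomology of `Y^2`), then `H = T` holds for all words.

The question of independence of `ℓ` and of the reduction to a finite number of tensors is known for abelian
varieties (Faltings, Serre, Larsen-Pink); here `Y` is arbitrary with a large Mumford-Tate group. The
hand-ins `FourthPowerAtOnePrime` of this run (for MP_938ce2 and MP_640417) and `OnePrimeEvenRank` treat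
one piece `V`, the Galois side only; here there are several pieces, which can be of different types, and the
result is the equality with the spaces of Hodge classes.

Idea of the proof. (A) Larsen's alternative at `ℓ₀`, infinitesimally, for every `V_i`. (B) The joint Lie algebra
of the image at `ℓ₀`: by the lemma of Goursat, Kolchin and Ribet it is the product of the Lie algebras of the
forms, if no two factors are connected by an equivariant map; such a map would be a Tate class
in `End(V_i) ⊗ End(V_j)`, which is excluded by (T). (C) For every `i` one finds by Chebotarev's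
theorem and `ℓ₀`-adic approximation a place `v` such that the roots of `P_{i,v}` generate a ramified extension
of the completion and the roots of all the other `P_{j,v}` an unramified one; so some root of `P_{i,v}` has no positive
power in the group generated by the roots of the other `P_{j,v}` and the rational numbers. (D) By project OP
(`FourthPowerAtOnePrime`) the Lie algebra of each `V_{i,ℓ}` is the full Lie algebra of the form for 100 percent
of the `ℓ` (and for every `ℓ` as in (2)), and by (C) no two factors are connected at `ℓ`: the joint Lie algebra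
is full at `ℓ`. (E) Tate classes are then killed by the full Lie algebra (which is perfect), and
are combinations of rational tensors which are killed by the rational Lie algebra; these are the Hodge classes.
Conversely tensors which are killed by the Lie algebra are multiplied by the correct power of the character by
an open subgroup.

The tasks of project PO were proved in this run by helper308 (joint tangent vectors; killed tensors are Tate
classes), helper529 (Goursat), helper21 (pair alternative), helper644 (no equivariant maps), helper539 (unramified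
elements), helper62 (local types, symplectic), helper361 (odd orthogonal), helper552 (even orthogonal) and
helper325/helper589 (open image); the tasks of the earlier project OP by helper393, helper757, helper810,
helper62, helper422, helper329, helper746, helper252, helper872 and others; it uses projects ZO, ZI, ZS, ZD of
the starting files.
-/

set_option autoImplicit false

namespace Pool.Agent.Results.MP_6c781a_ag.FourthPowerSuffices

open Matrix Polynomial Filter Topology NumberField IsDedekindDomain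

/-- the absolute Galois group of `K`, with its profinite (Krull) topology -/
abbrev AbsoluteGaloisGroup (K : Type) [Field K] : Type := Gal(AlgebraicClosure K/K)

/-- `σ` is an (arithmetic) Frobenius element at the prime `v` of the number field `K`: for some prime
`Q` of the algebraic closure above `v` it acts on the residue field as `x ↦ x ^ N(v)` -/
def IsFrobenius {K : Type} [Field K] [NumberField K] (v : HeightOneSpectrum (𝓞 K))
    (σ : AbsoluteGaloisGroup K) : Prop :=
  ∃ Q : Ideal (𝓞 (AlgebraicClosure K)), Q.IsMaximal ∧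
    Q.comap (algebraMap (𝓞 K) (𝓞 (AlgebraicClosure K))) = v.asIdeal ∧
    ∀ x : 𝓞 (AlgebraicClosure K), σ • x - x ^ Ideal.absNorm v.asIdeal ∈ Q

/-- `X` belongs to the Lie algebra of the isometry group of the form with the matrix `J` -/
def InLieAlgebra {F : Type} [Field F] {N : ℕ} (J X : Matrix (Fin N) (Fin N) F) : Prop :=
  Xᵀ * J + J * X = 0

/-- the form with the rational matrix `J` is nondegenerate, and either alternating of positive rank (and
the weight `w` is arbitrary) or symmetric of rank `N ≥ 5`, `N ≠ 6` (and `w = 0`) -/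
def IsPolarization {N : ℕ} (w : ℕ) (J : Matrix (Fin N) (Fin N) ℚ) : Prop :=
  J.det ≠ 0 ∧ ((Jᵀ = -J ∧ 0 < N) ∨ (Jᵀ = J ∧ 5 ≤ N ∧ N ≠ 6 ∧ w = 0))

/-- The Mumford-Tate group is as large as the forms permit: the operators `h i` (`(p - q) / 2` on
`V_i^{p,q}`) are in the Lie algebras of the forms, and every rational Lie algebra whose
complexification contains `h` contains the Lie algebras of the forms. -/
def HasMaximalMumfordTateGroup {I : Type} {N : I → ℕ}
    (J : ∀ i, Matrix (Fin (N i)) (Fin (N i)) ℚ) (h : ∀ i, Matrix (Fin (N i)) (Fin (N i)) ℂ) : Prop :=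
  (∀ i, InLieAlgebra ((J i).map (algebraMap ℚ ℂ)) (h i)) ∧
  ∀ 𝔞 : Submodule ℚ (∀ i, Matrix (Fin (N i)) (Fin (N i)) ℚ),
    (∀ X ∈ 𝔞, ∀ Y ∈ 𝔞, (fun i => X i * Y i - Y i * X i) ∈ 𝔞) →
    h ∈ Submodule.span ℂ {Z : ∀ i, Matrix (Fin (N i)) (Fin (N i)) ℂ |
      ∃ X ∈ 𝔞, Z = fun i => (X i).map (algebraMap ℚ ℂ)} →
    ∀ X, (∀ i, InLieAlgebra (J i) (X i)) → X ∈ 𝔞

/-- `κ` is the inverse of the cyclotomic character: it is continuous, and its value at the geometric
Frobenius elements at the places `v ∉ S` prime to `ℓ` is `N(v)` -/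
def IsCyclotomic {K : Type} [Field K] [NumberField K] (ℓ : ℕ) [Fact ℓ.Prime]
    (κ : AbsoluteGaloisGroup K →* ℚ_[ℓ]) (S : Set (HeightOneSpectrum (𝓞 K))) : Prop :=
  Continuous κ ∧ ∀ v ∉ S, (ℓ : 𝓞 K) ∉ v.asIdeal → ∀ σ : AbsoluteGaloisGroup K, IsFrobenius v σ →
    κ σ⁻¹ = (Ideal.absNorm v.asIdeal : ℚ_[ℓ])

/-- `ρ` is a continuous representation on `ℚ_ℓ ^ N`, it multiplies the form `J` by the power `κ ^ w`, and for
the places `v ∉ S` prime to `ℓ` the characteristic polynomial of the geometric Frobenius elements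
at `v` is `P v` -/
def IsSystem {K : Type} [Field K] [NumberField K] (N w ℓ : ℕ) [Fact ℓ.Prime]
    (κ : AbsoluteGaloisGroup K →* ℚ_[ℓ])
    (ρ : AbsoluteGaloisGroup K →* Matrix (Fin N) (Fin N) ℚ_[ℓ]) (J : Matrix (Fin N) (Fin N) ℚ)
    (S : Set (HeightOneSpectrum (𝓞 K))) (P : HeightOneSpectrum (𝓞 K) → ℚ[X]) : Prop :=
  Continuous ρ ∧
    (∀ σ, (ρ σ)ᵀ * J.map (algebraMap ℚ ℚ_[ℓ]) * ρ σ = κ σ ^ w • J.map (algebraMap ℚ ℚ_[ℓ])) ∧
    ∀ v ∉ S, (ℓ : 𝓞 K) ∉ v.asIdeal → ∀ σ : AbsoluteGaloisGroup K, IsFrobenius v σ →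
      (ρ σ⁻¹).charpoly = (P v).map (algebraMap ℚ ℚ_[ℓ])

/-- the value at `v` of the multilinear form with the coefficients `T` -/
def value {F : Type} [Field F] {k : ℕ} {M : Fin k → ℕ} (T : (∀ t, Fin (M t)) → F)
    (v : ∀ t, Fin (M t) → F) : F :=
  ∑ r, T r * ∏ t, v t (r t)

/-- the rational tensor `T` in the word `a` is a Hodge class: it is killed by the derivation given by the
operators `h` (`(p - q) / 2` on `V_i^{p,q}`) -/
def IsHodgeClass {I : Type} {N : I → ℕ} (h : ∀ i, Matrix (Fin (N i)) (Fin (N i)) ℂ) {k : ℕ}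
    (a : Fin k → I) (T : (∀ t, Fin (N (a t))) → ℚ) : Prop :=
  ∀ v : ∀ t, Fin (N (a t)) → ℂ,
    ∑ t, value (fun r => (T r : ℂ)) (Function.update v t (h (a t) *ᵥ v t)) = 0

/-- the space of combinations with `ℓ`-adic coefficients of the Hodge classes in the word `a` -/
noncomputable def hodgeClasses {I : Type} {N : I → ℕ} (h : ∀ i, Matrix (Fin (N i)) (Fin (N i)) ℂ) (ℓ : ℕ)
    [Fact ℓ.Prime] {k : ℕ} (a : Fin k → I) : Submodule ℚ_[ℓ] ((∀ t, Fin (N (a t))) → ℚ_[ℓ]) :=
  Submodule.span ℚ_[ℓ] {T | ∃ T₀ : (∀ t, Fin (N (a t))) → ℚ, IsHodgeClass h a T₀ ∧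
    T = fun r => (T₀ r : ℚ_[ℓ])}

/-- the `ℓ`-adic tensor `T` in the word `a` of the weight `2 j` is a Tate class: an open subgroup
acts on it as the character `κ ^ j` -/
def IsTateClass {K : Type} [Field K] {I : Type} {N : I → ℕ} {ℓ : ℕ} [Fact ℓ.Prime]
    (ρ : ∀ i, AbsoluteGaloisGroup K →* Matrix (Fin (N i)) (Fin (N i)) ℚ_[ℓ])
    (κ : AbsoluteGaloisGroup K →* ℚ_[ℓ]) {k : ℕ} (a : Fin k → I) (j : ℕ)
    (T : (∀ t, Fin (N (a t))) → ℚ_[ℓ]) : Prop :=
  ∃ U : Subgroup (AbsoluteGaloisGroup K), IsOpen (U : Set (AbsoluteGaloisGroup K)) ∧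
    ∀ σ ∈ U, ∀ v : ∀ t, Fin (N (a t)) → ℚ_[ℓ],
      value T (fun t => ρ (a t) σ *ᵥ v t) = κ σ ^ j * value T v

/-- `T ⊆ H` for the word `a`: the Tate classes are combinations of Hodge classes -/
def TateClassesAreHodge {K : Type} [Field K] {I : Type} {N w : I → ℕ}
    (h : ∀ i, Matrix (Fin (N i)) (Fin (N i)) ℂ) {ℓ : ℕ} [Fact ℓ.Prime]
    (ρ : ∀ i, AbsoluteGaloisGroup K →* Matrix (Fin (N i)) (Fin (N i)) ℚ_[ℓ])
    (κ : AbsoluteGaloisGroup K →* ℚ_[ℓ]) {k : ℕ} (a : Fin k → I) : Prop :=
  ∀ j : ℕ, ∑ t, w (a t) = 2 * j → ∀ T, IsTateClass ρ κ a j T → T ∈ hodgeClasses h ℓ a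

/-- `H = T` for all words, that is for all products of the `V_i` and all the powers of `Y` -/
def MumfordTateConjecture {K : Type} [Field K] {I : Type} {N w : I → ℕ}
    (h : ∀ i, Matrix (Fin (N i)) (Fin (N i)) ℂ) {ℓ : ℕ} [Fact ℓ.Prime]
    (ρ : ∀ i, AbsoluteGaloisGroup K →* Matrix (Fin (N i)) (Fin (N i)) ℚ_[ℓ])
    (κ : AbsoluteGaloisGroup K →* ℚ_[ℓ]) : Prop :=
  ∀ (k : ℕ) (a : Fin k → I) (j : ℕ), ∑ t, w (a t) = 2 * j →
    ∀ T, IsTateClass ρ κ a j T ↔ T ∈ hodgeClasses h ℓ a

/-- the conditions on the prime number `ℓ₀` -/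
def IsAllowed (ℓ : ℕ) {N : ℕ} (J : Matrix (Fin N) (Fin N) ℚ) : Prop :=
  (Jᵀ = -J → ℓ ≠ 2) ∧ (Jᵀ = J → Odd N → ¬ ℓ ∣ N - 1) ∧
    (Jᵀ = J → Even N → ¬ ℓ ∣ (N - 2) * (N - 4) ∧ Even (padicValRat ℓ J.det))

/-- the representation is semisimple: every stable subspace has a stable complement -/
def IsSemisimple {G : Type} [Group G] {N : ℕ} {ℓ : ℕ} [Fact ℓ.Prime]
    (ρ : G →* Matrix (Fin N) (Fin N) ℚ_[ℓ]) : Prop :=
  ∀ W : Submodule ℚ_[ℓ] (Fin N → ℚ_[ℓ]), (∀ σ, ∀ w ∈ W, ρ σ *ᵥ w ∈ W) →
    ∃ W' : Submodule ℚ_[ℓ] (Fin N → ℚ_[ℓ]), IsCompl W W' ∧ ∀ σ, ∀ w ∈ W', ρ σ *ᵥ w ∈ W'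

/-- the representation on the endomorphisms of `ℚ_ℓ ^ N` is semisimple -/
def IsSemisimpleOnSquare {G : Type} [Group G] {N : ℕ} {ℓ : ℕ} [Fact ℓ.Prime]
    (ρ : G →* Matrix (Fin N) (Fin N) ℚ_[ℓ]) : Prop :=
  ∀ W : Submodule ℚ_[ℓ] (Matrix (Fin N) (Fin N) ℚ_[ℓ]),
    (∀ σ, ∀ A ∈ W, ρ σ * A * ρ σ⁻¹ ∈ W) →
    ∃ W' : Submodule ℚ_[ℓ] (Matrix (Fin N) (Fin N) ℚ_[ℓ]), IsCompl W W' ∧
      ∀ σ, ∀ A ∈ W', ρ σ * A * ρ σ⁻¹ ∈ W'

/-- the place `v` is supersingular for the weight `w`: for some `n > 0` all roots `x` of `P v` satisfy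
`x^(2n) = (N(v)^w)^n` -/
def IsSupersingular {K : Type} [Field K] [NumberField K] (w : ℕ)
    (P : HeightOneSpectrum (𝓞 K) → ℚ[X]) (v : HeightOneSpectrum (𝓞 K)) : Prop :=
  ∃ n : ℕ, 0 < n ∧ ∀ x : ℂ, aeval x (P v) = 0 →
    x ^ (2 * n) = (((Ideal.absNorm v.asIdeal : ℚ) ^ w : ℚ) : ℂ) ^ n

/-- the set `A` of prime numbers has natural density zero -/
def HasDensityZero (A : Set ℕ) : Prop :=
  Tendsto (fun n : ℕ => (Nat.card {ℓ : ℕ // ℓ ≤ n ∧ ℓ ∈ A} : ℝ) / (Nat.primeCounting n : ℝ))
    atTop (𝓝 0)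

/-- **`T ⊆ H` for `Y^4` at one prime number implies `H = T` for all `Y^k` at 100 percent of the prime
numbers, and at every prime number at which the `V_i` are semisimple and `T ⊆ H` for `Y^2`.** -/
theorem result (K : Type) [Field K] [NumberField K] (I : Type) [Fintype I] (N w : I → ℕ)
    (J : ∀ i, Matrix (Fin (N i)) (Fin (N i)) ℚ) (hJ : ∀ i, IsPolarization (w i) (J i))
    (h : ∀ i, Matrix (Fin (N i)) (Fin (N i)) ℂ) (hMT : HasMaximalMumfordTateGroup J h)
    (S : Set (HeightOneSpectrum (𝓞 K))) (hS : S.Finite)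
    (P : I → HeightOneSpectrum (𝓞 K) → ℚ[X])
    (κ : ∀ (ℓ : ℕ) [Fact ℓ.Prime], AbsoluteGaloisGroup K →* ℚ_[ℓ])
    (hκ : ∀ (ℓ : ℕ) [Fact ℓ.Prime], IsCyclotomic ℓ (κ ℓ) S)
    (ρ : ∀ (i : I) (ℓ : ℕ) [Fact ℓ.Prime],
      AbsoluteGaloisGroup K →* Matrix (Fin (N i)) (Fin (N i)) ℚ_[ℓ])
    (hρ : ∀ (i : I) (ℓ : ℕ) [Fact ℓ.Prime], IsSystem (N i) (w i) ℓ (κ ℓ) (ρ i ℓ) (J i) S (P i))
    -- the prime number `ℓ₀`
    (ℓ₀ : ℕ) [Fact ℓ₀.Prime] (hℓ₀ : ∀ i, IsAllowed ℓ₀ (J i))
    (hT : ∀ a : Fin 4 → I, a 0 = a 1 → a 2 = a 3 →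
      TateClassesAreHodge (w := w) h (fun i => ρ i ℓ₀) (κ ℓ₀) a)
    (hss : ∀ i, IsSemisimpleOnSquare (ρ i ℓ₀))
    (hns : ∀ i, ∃ v ∉ S, (ℓ₀ : 𝓞 K) ∉ v.asIdeal ∧ ¬ IsSupersingular (w i) (P i) v) :
    HasDensityZero {ℓ | ∃ _ : Fact ℓ.Prime,
      ¬ MumfordTateConjecture (w := w) h (fun i => ρ i ℓ) (κ ℓ)} ∧
    ∀ (ℓ : ℕ) [Fact ℓ.Prime], (∀ i, IsSemisimple (ρ i ℓ)) →
      (∀ a : Fin 2 → I, a 0 = a 1 → TateClassesAreHodge (w := w) h (fun i => ρ i ℓ) (κ ℓ) a) →
      MumfordTateConjecture (w := w) h (fun i => ρ i ℓ) (κ ℓ) := by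
  classical
  -- the kinds of the forms
  have hkd : ∀ i, ∃ kd : R932.PO.Kind, R932.PO.Fits kd (J i) ∧
      R932.PO.Allows kd (N i) ℓ₀ (R932.PO.JL J ℓ₀ i) := by
    intro i
    rcases (hJ i).2 with ⟨h1, h2⟩ | ⟨h1, h2, h3, -⟩
    · exact ⟨.sym, ⟨h1, h2⟩, (hℓ₀ i).1 h1⟩
    · rcases Nat.even_or_odd (N i) with he | ho
      · have h4 := (hℓ₀ i).2.2 h1 he
        refine ⟨.even, ⟨h1, he, ?_⟩, h4.1, ?_⟩
        · obtain ⟨m, hm⟩ := he
          omega
        · have h5 : (R932.PO.JL J ℓ₀ i).det = (((J i).det : ℚ) : ℚ_[ℓ₀]) := by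
            show ((J i).map (algebraMap ℚ ℚ_[ℓ₀])).det = _
            rw [← eq_ratCast (algebraMap ℚ ℚ_[ℓ₀]), RingHom.map_det]
            rfl
          show Even (Padic.valuation (R932.PO.JL J ℓ₀ i).det)
          rw [h5, Padic.valuation_ratCast]
          exact h4.2
      · exact ⟨.odd, ⟨h1, ho, h2⟩, (hℓ₀ i).2.1 h1 ho⟩
  choose kd hfit hal using hkd
  have hwJ : ∀ i, (J i)ᵀ = J i → w i = 0 := by
    intro i hi
    rcases (hJ i).2 with ⟨h1, h2⟩ | ⟨-, -, -, h3⟩
    · exfalso
      apply (hJ i).1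
      have h3 : J i = 0 := by
        have h4 : J i = -J i := hi.symm.trans h1
        ext p q
        have h5 : J i p q = -J i p q := congrFun (congrFun h4 p) q
        rw [Matrix.zero_apply]
        linarith
      have : Nonempty (Fin (N i)) := ⟨⟨0, h2⟩⟩
      rw [h3]
      exact det_zero
    · exact h3
  -- Hodge classes
  have hhodge : ∀ (ℓ : ℕ) [Fact ℓ.Prime] (k : ℕ) (a : Fin k → I)
      (T : (∀ t, Fin (N (a t))) → ℚ_[ℓ]),
      T ∈ hodgeClasses h ℓ a ↔ R932.PO.Killed (R932.PO.JL J ℓ) a T := by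
    intro ℓ _ k a T
    have h1 := R932.PO.killed_span (k₀ := ℚ) (K := ℚ_[ℓ]) (J := J) (a := a) (T := T)
    refine Iff.trans ?_ h1.symm
    have h2 : {T : (∀ t, Fin (N (a t))) → ℚ_[ℓ] | ∃ T₀ : (∀ t, Fin (N (a t))) → ℚ,
        IsHodgeClass h a T₀ ∧ T = fun r => (T₀ r : ℚ_[ℓ])} =
        {T' : (∀ t, Fin (N (a t))) → ℚ_[ℓ] | ∃ T₀ : (∀ t, Fin (N (a t))) → ℚ,
          R932.PO.Killed J a T₀ ∧ T' = fun r => algebraMap ℚ ℚ_[ℓ] (T₀ r)} := by
      ext T
      refine exists_congr fun T₀ => and_congr (R932.PO.hodge_killed hMT) ?_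
      rfl
    show T ∈ Submodule.span ℚ_[ℓ] {T : (∀ t, Fin (N (a t))) → ℚ_[ℓ] | ∃ T₀ : (∀ t, Fin (N (a t))) → ℚ,
        IsHodgeClass h a T₀ ∧ T = fun r => (T₀ r : ℚ_[ℓ])} ↔ _
    rw [h2]
  have hfin := R932.PO.final_mt (K := K) (P := P) (kd := kd) (w := w) hS J hfit (fun i => (hJ i).1) hwJ κ
    (fun ℓ _ => (hκ ℓ).1) (fun ℓ _ v hv hvℓ σ hσ => (hκ ℓ).2 v hv hvℓ σ hσ) ρ
    (fun i ℓ _ => (hρ i ℓ).1) (fun i ℓ _ g => (hρ i ℓ).2.1 g)
    (fun i ℓ _ v hv hvℓ σ hσ => (hρ i ℓ).2.2 v hv hvℓ σ hσ) ℓ₀ hal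
    (fun a h1 h2 j hj T hTa => (hhodge ℓ₀ 4 a T).1 (hT a h1 h2 j hj T hTa)) hss (by
      intro i
      obtain ⟨v, hv, hvℓ, hn⟩ := hns i
      refine ⟨v, hv, hvℓ, fun n hn0 => ?_⟩
      by_contra hno
      push Not at hno
      exact hn ⟨n, hn0, hno⟩)
  constructor
  · refine Y142.ZI.DensityZero.mono hfin.1 ?_
    rintro ℓ ⟨hp, hno⟩
    refine ⟨hp, fun hall => hno ?_⟩
    intro k a j hj T
    rw [hhodge ℓ k a T]
    exact hall k a j hj T
  · intro ℓ _ hs1 hs2 k a j hj T
    rw [hhodge ℓ k a T]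
    exact hfin.2 ℓ hs1 (fun a h1 j hj T hTa => (hhodge ℓ 2 a T).1 (hs2 a h1 j hj T hTa)) k a j hj T

end Pool.Agent.Results.MP_6c781a_ag.FourthPowerSuffices
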