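import Pool.Agent.R914.UG.Fin2

/-!
# The Mumford-Tate conjecture for all powers of a variety follows from one explicit power

Let `X` be an **arbitrary** smooth projective variety over a finitely generated field `k₀` of
characteristic zero (for instance a number field) which is embedded in the field of complex numbers,
`d` its dimension, `b` the sum of its Betti numbers, and `ℓ` a prime number. Put

`N = 2 (b ^ 2 + 1) ((4 d b! + 1) (b ^ 2 + 1)) ^ (b ^ 2)`.

**Theorem.** If the Galois representation `H(X ^ N, ℚ_ℓ)` is semisimple and the Tate classes on the
single variety `X ^ N` are the linear combinations with coefficients in `ℚ_ℓ` of the Hodge classes
on it, then the same holds for all the powers `X ^ (n + 1)`: in all degrees the Tate classes are the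
linear combinations of the Hodge classes.

So the Mumford-Tate conjecture for `H(X)`, which is a statement about the infinitely many varieties
`X`, `X ^ 2`, `X ^ 3`, ..., of unbounded dimension (the connected component of the algebraic
monodromy group and the Mumford-Tate group of `H(X)` are equal if and only if they have the same
invariants in all tensor spaces), is the question whether two spaces of classes on `X ^ N` are equal,
and the number `N` depends only on `b` and `d`: it is the same for all varieties of a family, for all
fields and for all prime numbers `ℓ`. Nothing is assumed on the algebraic monodromy group or the
Mumford-Tate group of `X`. (For a product `X = X_1 × ... × X_r` one gets all the products of powers of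
the `X_i`, since these are retracts of the powers of `X`. For abelian varieties and for products of
curves the semisimplicity is known, by Faltings, and Hodge classes are Tate classes, by Deligne.)

Setting. A Hodge theory `T` is a Weil cohomology theory with rational coefficients and a Hodge
decomposition (`HodgeTheory` in the file `Pool.Agent.Y121.AHS.Defs`); in the intended use it is the
singular cohomology with rational coefficients of the smooth projective complex varieties, and
`NonnegTypes` and `HodgeSymmetric` are classical. We choose an isomorphism between the field of
complex numbers and an algebraic closure of the field `ℚ_ℓ`. Then the absolute Galois group `Γ` of
`k₀` acts on the cohomology with complex coefficients of the powers of `X` by transport from the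
étale cohomology (`GaloisAction`: linear, multiplicative, preserving degrees, commuting with
pull-backs under projections, acting on the orientation by the power `dim X` of the Tate twist `χ`,
and on the class of an algebraic cycle of codimension `j` by `χ ^ j` after restriction to a subgroup
of finite index).

* A Tate class of degree `2 j` is a class `x` of degree `2 j` with `g x = χ(g) ^ j x` for all `g` in a
  subgroup of finite index (`IsTate`), and `MumfordTate G n` says that the Tate classes on
  `X ^ (n + 1)` are the linear combinations of the Hodge classes, in all degrees.
* `Chebotarev G`: a function in the algebra generated by the matrix coefficients of the representation
  `H(X)` and the Tate twist which vanishes at the elements of a subgroup `Δ` of finite index which act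
  like Frobenius elements (`IsFrobenius`: the Tate twist is a prime number `p`, and the
  eigenvalues in degree `i` are the roots of a monic polynomial with integral coefficients, of
  absolute value `p ^ (i / 2)`) vanishes on `Δ`. This follows from the density of the Frobenius
  elements at closed points with prime residue field of a model of `X` (Chebotarev), and from the
  theorem of Deligne on the eigenvalues of Frobenius. (Only the image of the Galois group in the
  group of automorphisms of `H(X)` and the Tate twist matters, a compact `ℓ`-adic Lie group, in which
  subgroups of finite index are open.)
* `IsPolarised G`: the polarisation of the Hodge structure `H(X)` given by an ample divisor (over `k₀`),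
  the Lefschetz decomposition and the cup product is compatible with the Galois action.

The proof. First we consider the classes all of whose conjugates under the automorphisms of the
coefficients are combinations both of Hodge classes and of Tate classes. The tensors given by them are
stable under products, permutations, contractions and complex conjugation. By the method of the file
`Pool.Agent.Results.MP_e12fcd_ag.OnePowerSuffices` (the group generated by the conjugates of the
Hodge torus, polynomials of bounded degree, double commutants, positivity) all Hodge classes on all
powers of `X` belong to them, so they are Tate classes. For every element `F` of `Γ` which acts
like a Frobenius element, for the prime number `p`, and every embedding `ψ` of the field generated by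
the eigenvalues into an algebraic closure of `ℚ_p`, the slopes of the eigenvalues (normalised
valuations, shifted by half the degree, and multiplied by `2 b!`) define a curve
`z ↦ P diag(z ^ r_1, ..., z ^ r_b) P⁻¹` of degree at most `2 d b!` in the matrices, where `P` consists
of generalised eigenvectors of `F` (Frobenius tori). Let `𝒢` be the group generated by these curves.
It is normalised by `Γ`, and all stable subspaces of tensor spaces for `Γ` are stable for `𝒢`; so
the tensor spaces are semisimple for `𝒢` (Clifford). A tensor which is fixed by `𝒢` has vanishing
slopes at all primes dividing `p`, and is of weight zero after a twist, so the eigenvalues of the
Frobenius elements on the space of all these tensors are roots of unity, of bounded order, up to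
the twist; by the theorems of Chebotarev and Burnside a subgroup of finite index acts by the twist.
So the tensors fixed by `𝒢` are exactly the Tate classes (those of odd degree vanish). Counting
dimensions of spaces of polynomials (a coarse form of the theorem of Bézout) shows that the ideal of the
Zariski closure of `𝒢` is determined by the polynomials of degree at most `D = N / 2`, and for these
one can use the double commutant theorem in the spaces `V^⊗m`, `m ≤ D`, `V = H(X, ℂ)`; the commutant is
given by Tate classes on `X ^ (2 m)`, which are combinations of Hodge classes by assumption.
Positivity and the theorem of Hilbert on the zeros of ideals show that the system of tensors given
by the Hodge classes is the system of all invariants of its stabiliser `H`; and the comparison of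
the ideals shows that `H` has no more elements than the Zariski closure of `𝒢`.
-/

open CategoryTheory AlgebraicGeometry

universe u

namespace Pool.Agent.Results.MP_6c781a_ag.OnePowerSuffices

open Pool.Agent.H914 Pool.Agent.H914.VarClass Pool.Agent.H914.VarClass.Obj
  Pool.Agent.H914.WeilCohomology Pool.Agent.Y121.AHS Pool.Agent.R940 Pool.Agent.R914.UN
  Pool.Agent.R914.UG
open Pool.Agent.Y163 (pw)

theorem result {k : Type u} [Field k] {𝒱 : VarClass k} {ops : CycleOps 𝒱} (T : HodgeTheory ops)
    (hT : NonnegTypes T) (X : 𝒱.Obj) (hX : HodgeSymmetric T X) {Γ : Type} [Group Γ]
    (G : GaloisAction T X Γ) (hC : Chebotarev G) (hP : IsPolarised G) (N : ℕ)
    (hN : N = galBound (totBetti T X) X.dim) (hS : IsSemisimple G (N - 1))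
    (hMT : MumfordTate G (N - 1)) (n : ℕ) : MumfordTate G n := by
  subst hN
  exact mt_main G hT hX hC hP hS hMT n

end Pool.Agent.Results.MP_6c781a_ag.OnePowerSuffices
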