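import Mathlib
import Pool.Agent.R931.ZG.Law

/-!
# The Mumford-Tate conjecture at a positive proportion of the primes, from one prime

Let `M` be a motive (André's motivated cycles or absolute Hodge classes) over a number field `K`, or a
motive over a finitely generated field with a `K`-rational point `s` of the base of a model, with
realizations `V_ℓ` of dimension `N`, and let `𝔤_ℓ` be the Lie algebra of the motivic Galois group in
`End V_ℓ`: a reductive Lie algebra which is defined by its invariant tensors; these are Tate tensors.  If
the Hodge classes of all powers are motivated (for instance for abelian varieties, by Deligne and André)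
then the invariant tensors of `𝔤_ℓ` are spanned by the Hodge classes.  The
Mumford-Tate conjecture at `ℓ` says that conversely all Tate classes are invariant under `𝔤_ℓ`.

Let `r` be the rank of `𝔤_ℓ`.  The *relations* between numbers `z_1, ..., z_N` are the vectors `n` of
integers such that the product of the `z_i ^ {n_i}` is a root of unity.  Let `R` be a set of vectors of rank
at most `N - r` (the relations between the weights), and let `A` be the group of permutations of
`{1, ..., N}` which preserve `R`.  An element `γ` of the image of the Galois group at a prime `p` has the
*type* `a` (with respect to `p` and to an automorphism `τ` of the algebraic closure of `ℚ_p`) if the eigenvalues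
of `ρ_p(γ)` can be written as `z_1, ..., z_N` with relations `R` and `τ (z_i) = z_{a(i)}` (no quotient of two
of them being a root of unity).  In the same way we define the types of the elements of the Lie algebra of the
image, with the linear relations between the eigenvalues.

**Theorem.**  Let `T j` (for `j` in any index set) be sets of types which occur at primes `p j` for
automorphisms `τ j`.  Suppose that the following condition on finite permutation groups is satisfied
(`ForcesSplit`): if `M` is a normal subgroup of a subgroup `G` of `A` such that the elements of `T j` are, for
every `j`, conjugate in `A` to elements of a coset of `M` in `G`, then every subgroup `N` of `A` which contains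
conjugates in `A` of all elements of `M` satisfies the *lattice condition* (`LatticeFull`): for every
group of permutations `B` which contains `N` and has at least `m` orbits, where `m` is the dimension of the
commutant of `𝔤_ℓ`, the vectors `e_i - e_{b(i)}`, `b` in `B`, are contained in the lattice `Λ_N` generated by `R`
and the vectors `e_i - e_{a(i)}`, `a` in `N`.  (For instance `N` has at most `m` orbits; if `𝔤_ℓ` acts irreducibly,
the condition says that `Λ_N` contains all the vectors `e_i - e_j`.)  Then there is a number field `F` such that the Mumford-Tate conjecture is true for `100`
percent of the prime numbers `ℓ` which split completely in `F`: `V_ℓ` is semisimple and the Tate tensors are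
exactly the invariant tensors of `𝔤_ℓ`.

(In the Lean statement there is a monic polynomial `f` with integral coefficients, and the result holds
for `100` percent of the primes `ℓ` modulo which `f` splits; `F` is the splitting field of `f`.  By
Chebotarev's theorem these primes have the density `1 / [F : ℚ]`.)

For example the sets `T j` can be the sets `{1, a_j}`; then `M` contains conjugates of all `a_j`, and
the condition is true if every subgroup of `A` which contains conjugates of all `a_j` satisfies the lattice
condition.  So the Mumford-Tate conjecture at a single prime `p` at which the group is split (then the image is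
open and all elements of the Weyl group `W` occur as types) implies the Mumford-Tate conjecture at a positive
proportion of the primes, for motives of any weight and any motivic Galois group such that the weights have
multiplicity one and the subgroups of `A` which contain conjugates of all elements of `W` satisfy the
lattice condition.  For example: the symplectic and even orthogonal similitude groups; unitary motives (`V_ℓ` is the sum of the
standard representation of `GL_n` and its dual; an `n`-cycle and `1` are enough); spin and half-spin
groups; `E_6` (27 + 27) and `E_7`; products and tensor products of such motives; motives with coefficients; the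
representation of dimension `7` of `G_2`, and other irreducible representations whose weights have
multiplicity one and form several orbits of `W` (see `ZeroOneLaw` in MP_3703a7_ag).

Comparison.  In `ZeroOneLaw` (MP_3703a7_ag) one gets the result for `100` percent of all primes, but
under a stronger condition on the permutation groups (one has to consider all cosets of `M` in `G`, since an
element of `A` can be realized by the Galois group of the number field `F`, and the Frobenius of
`ℓ` in `F` is not trivial in general).  For abelian varieties the Mumford-Tate conjecture is independent of `ℓ`
(Larsen-Pink), using the theorem of Faltings and the special weights; here the motives are arbitrary, and so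
is the number field `K`.

Idea of the proof.  Call a place good if no quotient of two Frobenius eigenvalues is a root of unity and if
there are `r` multiplicatively independent ones.  Elements of given types are approximated by Frobenius
elements at good places, with the same relations and the same types, at finitely many primes at once.  Let
`F` be the intersection of the splitting fields of the Frobenius polynomials at the good places, and let
`M ≤ G` be the Galois groups over `F` and over `ℚ` of the eigenvalues at a suitable good place.
By Chebotarev's theorem for an infinite sequence of extensions of `F` which are independent over `F`,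
every element of `M` occurs as a type of a good place for `100` percent of the primes `ℓ` which split in `F`.
For such `ℓ`, the eigenvectors at one good place are labelled by `{1, ..., N}`.  For another good place, the
pencil spanned by the logarithms of the two Frobenius elements gives a bijection of the Frobenius
eigenvalues which preserves the relations and, for all invariant subspaces (over the algebraic closure of
`ℚ_ℓ`) at the same time, the eigenvalues on the subspace.  Therefore the labels of all invariant subspaces
are stable under a group `N` which contains conjugates of all elements of `M`.  Consider the Lie algebra `𝔥` of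
the endomorphisms which kill all Tate tensors and preserve the invariant subspaces; it contains a Cartan
subalgebra of `𝔤_ℓ`.  The `𝔥`-stable subspaces are sums of weight spaces, so they are stable under an open subgroup
of the Galois group, and their labels are stable under `N`.  Using the sums of the weight spaces for the weights
`λ` with `λ(d) ≥ x`, where `d` corresponds to the sum of the roots of `𝔥`, one sees that `d` is orthogonal to `Λ_N`,
and so to the roots, and therefore `𝔥` is reductive.  The sums of the weight spaces for the classes of weights
modulo the lattice of the roots of `𝔥` show that this lattice contains all roots of `𝔤_ℓ`, and `𝔥 = 𝔤_ℓ` follows.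
-/

set_option autoImplicit false

namespace Pool.Agent.Results.MP_6c781a_ag.PositiveProportion

open NumberField IsDedekindDomain Polynomial Module Pool.Agent.Y114.TF Pool.Agent.Y114.GF
  Pool.Agent.Y114.MU Pool.Agent.Y114.RM Pool.Agent.R931.GD Pool.Agent.R931.ZL Pool.Agent.R931.ZM
  Pool.Agent.R931.PD Pool.Agent.R931.ZF Pool.Agent.R931.ZG

theorem result (K : Type) [Field K] [NumberField K] (Γ : Type) [Group Γ] [TopologicalSpace Γ]
    [IsTopologicalGroup Γ] [CompactSpace Γ] (s : Gal(AlgebraicClosure K/K) →* Γ)
    (hs : Continuous s)
    -- the `ℓ`-adic realizations
    (N : ℕ) (hN : 0 < N)
    (ρ : ∀ (ℓ : ℕ) [Fact ℓ.Prime], Rep1 Γ N ℓ) (hρ : ∀ (ℓ : ℕ) [Fact ℓ.Prime], Conts (ρ ℓ))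
    -- good reduction outside of a finite set of places
    (wt : ℤ) (c : ℕ) (S : Set (HeightOneSpectrum (𝓞 K))) (hS : S.Finite)
    (P : HeightOneSpectrum (𝓞 K) → ℚ[X])
    (hP : ∀ (ℓ : ℕ) [Fact ℓ.Prime], ∀ v ∉ S, ¬ Above v ℓ →
      GoodReduction (restrictTo (ρ ℓ) s) () wt v (P v))
    (hint : ∀ v ∉ S, IntegralAt c v (P v))
    -- the Lie algebras of the motivic Galois groups, of rank `r`
    (𝔤 : ∀ (ℓ : ℕ) [Fact ℓ.Prime], End1 N ℓ) (h𝔤 : ∀ (ℓ : ℕ) [Fact ℓ.Prime], Motivic (ρ ℓ) (𝔤 ℓ))
    (r : ℕ) (hrank : ∀ (ℓ : ℕ) [Fact ℓ.Prime], RankLE (𝔤 ℓ) r)
    -- the relations between the weights
    (R : Set (Fin N → ℤ)) (hR : RankGE r R)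
    -- the types at some prime numbers
    (J : Type) (T : J → Set (Equiv.Perm (Fin N))) (hne : ∃ j, (T j).Nonempty)
    (p : J → ℕ) [∀ j, Fact (p j).Prime] (τ : ∀ j, Gal(PadicAlgCl (p j)/ℚ_[p j]))
    (htypes : ∀ j, ∀ a ∈ T j, TypeOccurs s (ρ (p j)) R (τ j) a)
    -- the condition on the permutation groups
    (m : ℕ) (hend : ∀ (ℓ : ℕ) [Fact ℓ.Prime], m ≤ commutantDim (𝔤 ℓ))
    (hm : ForcesSplit (relAut R) T (LatticeFull R m)) :
    ∃ f : ℤ[X], f.Monic ∧ HasDensityZero {ℓ | ∃ _ : Fact ℓ.Prime,
      (f.map (Int.castRingHom (ZMod ℓ))).Splits ∧
        ¬ (Semisimple (ρ ℓ) ∧ TateTensorsOf (ρ ℓ) (𝔤 ℓ))} :=
  main_lawS (K := K) (Γ := Γ) (s := s) (N := N) (wt := wt) (c := c) (r := r) (S := S) (P := P)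
    (ρ := ρ) (𝔤 := 𝔤) ⟨hN, hs, hρ, hS, hP, hint, h𝔤, hrank⟩ R hR T hne p τ htypes m hm hend

end Pool.Agent.Results.MP_6c781a_ag.PositiveProportion
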